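import Mathlib
import Pool.Agent.Y608.BUT10

/-!
Finitely generated torsion groups with a law whose varieties contain all soluble groups of a given
derived length, all residually torsion groups with a given law, and a given product of varieties
generated by torsion groups.
-/

set_option autoImplicit false

namespace Pool.Agent.Results.MP_67fb03_al.TorsionVarieties

open Pool.Agent.TH54.BU Pool.Agent.TH54.BU.Tors RegularWreathProduct Y608.BUT
open scoped commutatorElement

universe u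

/-- `w` is a law of `G`. -/
def Law (w : FreeGroup ℕ) (G : Type u) [Group G] : Prop := ∀ f : FreeGroup ℕ →* G, f w = 1

/-- No two elements of `G` generate a free semigroup of rank two. -/
def NoFreeSubsemigroups (G : Type u) [Group G] : Prop :=
  ∀ a b : G, ∃ s t : FreeMonoid (Fin 2), s ≠ 1 ∧ t ≠ 1 ∧ s ≠ t ∧
    FreeMonoid.lift ![a, b] s = FreeMonoid.lift ![a, b] t

/-- The quotients of `H` which are torsion groups separate the points of `H`. -/
def ResiduallyTorsion (H : Type u) [Group H] : Prop :=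
  ∀ x : H, x ≠ 1 → ∃ N : Subgroup H, N.Normal ∧ x ∉ N ∧ ∀ y : H, ∃ n : ℕ, 0 < n ∧ y ^ n ∈ N

theorem noFree_of_torsion {G : Type} [Group G] (h : ∀ g : G, IsOfFinOrder g) :
    NoFreeSubsemigroups G := by
  intro a b
  obtain ⟨n, hn, han⟩ := (isOfFinOrder_iff_pow_eq_one).1 (h a)
  have hlen : ∀ k : ℕ, (FreeMonoid.of (0 : Fin 2) ^ k).length = k := by
    intro k
    induction k with
    | zero => rfl
    | succ k ih => rw [pow_succ, FreeMonoid.length_mul, ih, FreeMonoid.length_of]
  refine ⟨FreeMonoid.of 0 ^ n, FreeMonoid.of 0 ^ (2 * n), ?_, ?_, ?_, ?_⟩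
  · intro h
    have := congrArg FreeMonoid.length h
    rw [hlen, FreeMonoid.length_one] at this
    omega
  · intro h
    have := congrArg FreeMonoid.length h
    rw [hlen, FreeMonoid.length_one] at this
    omega
  · intro h
    have := congrArg FreeMonoid.length h
    rw [hlen, hlen] at this
    omega
  · simp [pow_mul, mul_comm 2 n, han]

theorem general (v : FreeGroup ℕ) (hv : v ≠ 1) (d : ℕ) :
    ∃ (G : Type) (_ : Group G), Group.FG G ∧ (∀ g : G, IsOfFinOrder g) ∧
      NoFreeSubsemigroups G ∧ (∃ w : FreeGroup ℕ, w ≠ 1 ∧ Law w G) ∧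
      ∀ (H : Type u) [Group H] (N : Subgroup H) [N.Normal], derivedSeries N d = ⊥ →
        ResiduallyTorsion (H ⧸ N) → Law v (H ⧸ N) → ∀ w, Law w G → Law w H := by
  obtain ⟨p0, hb⟩ := Pool.Agent.TH54.BU.burnside
  obtain ⟨q, hle, hq⟩ := Nat.exists_infinite_primes (max p0 3)
  have hB := hb q hq (le_trans (le_max_left _ _) hle)
  have hinf := Pool.Agent.TH54.BU.Burn.infinite hq hB
  have hexp : ∀ b : FreeGroup (Fin 2) ⧸ Pool.Agent.TH54.BU.powSub (FreeGroup (Fin 2)) q,
      b ^ q = 1 := by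
    intro b
    obtain ⟨g, rfl⟩ := QuotientGroup.mk_surjective b
    rw [← QuotientGroup.mk_pow, QuotientGroup.eq_one_iff]
    exact Subgroup.subset_normalClosure ⟨g, rfl⟩
  have hfg : Group.FG (FreeGroup (Fin 2) ⧸ Pool.Agent.TH54.BU.powSub (FreeGroup (Fin 2)) q) :=
    inferInstance
  obtain ⟨G, _, h1, h2, h3, h4⟩ := Y608.BUT.main_sol.{u} hinf hfg hq.pos hexp v hv d
  exact ⟨G, inferInstance, h1, h2, noFree_of_torsion h2, h3, fun H _ N _ hd hH hHv w hw =>
    h4 w hw H N hd hH hHv⟩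

theorem products (G₁ G₂ : Type) [Group G₁] [Group G₂]
    (h₁ : ∀ x : G₁, IsOfFinOrder x) (h₂ : ∀ x : G₂, IsOfFinOrder x)
    (k₁ : ∃ v : FreeGroup ℕ, v ≠ 1 ∧ Law v G₁) (k₂ : ∃ v : FreeGroup ℕ, v ≠ 1 ∧ Law v G₂) :
    ∃ (G : Type) (_ : Group G), Group.FG G ∧ (∀ g : G, IsOfFinOrder g) ∧
      NoFreeSubsemigroups G ∧ (∃ w : FreeGroup ℕ, w ≠ 1 ∧ Law w G) ∧
      ∀ (H : Type u) [Group H] (N : Subgroup H) [N.Normal],
        (∀ w, Law w G₁ → Law w N) → (∀ w, Law w G₂ → Law w (H ⧸ N)) →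
          ∀ w, Law w G → Law w H := by
  obtain ⟨p0, hb⟩ := Pool.Agent.TH54.BU.burnside
  obtain ⟨q, hle, hq⟩ := Nat.exists_infinite_primes (max p0 3)
  have hB := hb q hq (le_trans (le_max_left _ _) hle)
  have hinf := Pool.Agent.TH54.BU.Burn.infinite hq hB
  have hexp : ∀ b : FreeGroup (Fin 2) ⧸ Pool.Agent.TH54.BU.powSub (FreeGroup (Fin 2)) q,
      b ^ q = 1 := by
    intro b
    obtain ⟨g, rfl⟩ := QuotientGroup.mk_surjective b
    rw [← QuotientGroup.mk_pow, QuotientGroup.eq_one_iff]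
    exact Subgroup.subset_normalClosure ⟨g, rfl⟩
  have hfg : Group.FG (FreeGroup (Fin 2) ⧸ Pool.Agent.TH54.BU.powSub (FreeGroup (Fin 2)) q) :=
    inferInstance
  obtain ⟨v₁, hn₁, hv₁⟩ := k₁
  obtain ⟨v₂, hn₂, hv₂⟩ := k₂
  obtain ⟨G, _, m1, m2, ⟨w₀, hw₀, hw₀'⟩, m4⟩ := Y608.BUT.main_prod.{u} hinf hfg hq.pos hexp G₁ G₂
    h₁ h₂ ⟨v₁, hv₁, hn₁⟩ ⟨v₂, hv₂, hn₂⟩
  exact ⟨G, inferInstance, m1, m2, noFree_of_torsion m2, ⟨w₀, hw₀', hw₀⟩,
    fun H _ N _ hN hQ w hw => m4 H N (fun u hu => hN u hu) (fun u hu => hQ u hu) hw⟩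

/-- **Finitely generated torsion groups generating large proper varieties.**

(1) For every `d` there is a finitely generated torsion group `G` (so `G` has no free
subsemigroups) with a nontrivial law such that all laws of `G` hold in every soluble group of
derived length at most `d`.

(2) For every nontrivial word `v` there is a finitely generated torsion group `G` with a nontrivial
law such that all laws of `G` hold in every residually torsion group (so in every torsion and in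
every residually finite group) with the law `v`.

(3) For torsion groups `G₁`, `G₂` with nontrivial laws there is a finitely generated torsion group
`G` with a nontrivial law such that all laws of `G` hold in every group `H` with a normal subgroup
`N` such that `N` is in the variety of `G₁` and `H / N` in the variety of `G₂`. -/
theorem result :
    (∀ d : ℕ, ∃ (G : Type) (_ : Group G), Group.FG G ∧ (∀ g : G, IsOfFinOrder g) ∧
      NoFreeSubsemigroups G ∧ (∃ w : FreeGroup ℕ, w ≠ 1 ∧ Law w G) ∧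
      ∀ (H : Type u) [Group H], derivedSeries H d = ⊥ → ∀ w, Law w G → Law w H) ∧
    (∀ v : FreeGroup ℕ, v ≠ 1 → ∃ (G : Type) (_ : Group G), Group.FG G ∧
      (∀ g : G, IsOfFinOrder g) ∧ NoFreeSubsemigroups G ∧
      (∃ w : FreeGroup ℕ, w ≠ 1 ∧ Law w G) ∧
      ∀ (H : Type u) [Group H], ResiduallyTorsion H → Law v H → ∀ w, Law w G → Law w H) ∧
    (∀ (G₁ G₂ : Type) [Group G₁] [Group G₂], (∀ x : G₁, IsOfFinOrder x) →
      (∀ x : G₂, IsOfFinOrder x) → (∃ v : FreeGroup ℕ, v ≠ 1 ∧ Law v G₁) →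
      (∃ v : FreeGroup ℕ, v ≠ 1 ∧ Law v G₂) →
      ∃ (G : Type) (_ : Group G), Group.FG G ∧ (∀ g : G, IsOfFinOrder g) ∧
        NoFreeSubsemigroups G ∧ (∃ w : FreeGroup ℕ, w ≠ 1 ∧ Law w G) ∧
        ∀ (H : Type u) [Group H] (N : Subgroup H) [N.Normal],
          (∀ w, Law w G₁ → Law w N) → (∀ w, Law w G₂ → Law w (H ⧸ N)) →
            ∀ w, Law w G → Law w H) := by
  refine ⟨?_, ?_, fun G₁ G₂ _ _ => products G₁ G₂⟩
  · intro d
    obtain ⟨G, _, h1, h2, h3, h4, h5⟩ := general.{u} (FreeGroup.of 0) (FreeGroup.of_ne_one 0) d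
    refine ⟨G, inferInstance, h1, h2, h3, h4, ?_⟩
    intro H _ hd w hw
    have hsub : Subsingleton (H ⧸ (⊤ : Subgroup H)) := QuotientGroup.subsingleton_quotient_top
    refine h5 H ⊤ ?_ (fun x hx => absurd (Subsingleton.elim x 1) hx)
      (fun f => Subsingleton.elim _ _) w hw
    rw [eq_bot_iff]
    intro x hx
    have h6 := map_derivedSeries_le_derivedSeries
      (Subgroup.topEquiv (G := H)).toMonoidHom d (Subgroup.mem_map_of_mem _ hx)
    rw [hd, Subgroup.mem_bot] at h6
    rw [Subgroup.mem_bot]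
    exact Subtype.ext h6
  · intro v hv
    obtain ⟨p0, hb⟩ := Pool.Agent.TH54.BU.burnside
    obtain ⟨q, hle, hq⟩ := Nat.exists_infinite_primes (max p0 3)
    have hB := hb q hq (le_trans (le_max_left _ _) hle)
    have hinf := Pool.Agent.TH54.BU.Burn.infinite hq hB
    have hexp : ∀ b : FreeGroup (Fin 2) ⧸ Pool.Agent.TH54.BU.powSub (FreeGroup (Fin 2)) q,
        b ^ q = 1 := by
      intro b
      obtain ⟨g, rfl⟩ := QuotientGroup.mk_surjective b
      rw [← QuotientGroup.mk_pow, QuotientGroup.eq_one_iff]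
      exact Subgroup.subset_normalClosure ⟨g, rfl⟩
    have hfg : Group.FG (FreeGroup (Fin 2) ⧸ Pool.Agent.TH54.BU.powSub (FreeGroup (Fin 2)) q) :=
      inferInstance
    obtain ⟨G, _, h1, h2, h3, h4⟩ := Y608.BUT.main.{u} hinf hfg hq.pos hexp v hv
    exact ⟨G, inferInstance, h1, h2, noFree_of_torsion h2, h3, fun H _ hH hHv w hw =>
      h4 w hw H hH hHv⟩

end Pool.Agent.Results.MP_67fb03_al.TorsionVarieties
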